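import Pool.Agent.W384.Fin
import Pool.Agent.W384.Count

/-!
The weak Goldfeld conjecture for cuspidal representations of `PGL(2)` fails: for the representation
generated by an odd Hecke-Maass cusp form of level one no quadratic twist has a non-vanishing central
value, so `N(x) = 0` for every `x`.
-/

set_option autoImplicit false

open Filter Topology

namespace Pool.Agent.Results.MP_5f72fe_nt.NoNonvanishingTwist

open Pool.Agent.W384

/-- **Negated form of Q1.** Odd Hecke-Maass cusp forms `F` of level one exist; for each of them the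
`L`-function of every quadratic twist vanishes at the centre `1/2`; the number `N(x)` of quadratic fields
with `|Δ| < x` and non-vanishing central value is `0` for every `x`; and so there are no `c > 0` and `x₀`
with `N(x) ≥ c x` for all `x ≥ x₀`. -/
theorem result :
    (∃ F : HeckeMaassCuspForm, F.IsOdd) ∧
    ∀ F : HeckeMaassCuspForm, F.IsOdd →
      (∀ E : QuadraticCharacter, ∃ L : ℂ → ℂ, IsTwistedLFunction F E L ∧
        (∀ L' : ℂ → ℂ, IsTwistedLFunction F E L' → L' = L) ∧ L (1 / 2) = 0) ∧
      (∀ x : ℝ, countNonvanishing F x = 0) ∧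
      ¬ ∃ c : ℝ, 0 < c ∧ ∃ x₀ : ℝ, ∀ x : ℝ, x₀ ≤ x → c * x ≤ (countNonvanishing F x : ℝ) := by
  refine ⟨exists_odd, fun F hF => ⟨fun E => ?_, countNonvanishing_eq_zero F hF, ?_⟩⟩
  · obtain ⟨L, hL, h0⟩ := vanish F hF E
    exact ⟨L, hL, fun L' hL' => isTwistedLFunction_unique hL' hL, h0⟩
  · rintro ⟨c, hc, x₀, h⟩
    have h1 := h (max x₀ 1) (le_max_left _ _)
    rw [countNonvanishing_eq_zero F hF] at h1
    have h2 : 0 < c * max x₀ 1 := mul_pos hc (lt_of_lt_of_le one_pos (le_max_right _ _))
    push_cast at h1
    linarith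

end Pool.Agent.Results.MP_5f72fe_nt.NoNonvanishingTwist
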